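import Pool.Agent.R627.RabbitStd

/-!
# `Homeo(R_4)` does not embed into `Homeo(R_3)`

Answers (negative) to Q1 and Q2 of MP_1730fe_al, for the universal groups
`𝓤(Sym([n]), Aut(S))` on the trees of circles, to which the homeomorphism groups of the regular
rabbits are isomorphic.

The group `C₃ × C₃` embeds into the universal group of the tree of circles of order `4` (rotate, at
two different points of a circle, the three other circles through this point). It does not embed
into the universal group of a tree of circles of order `3`: a finite group of type-preserving
automorphisms of a tree fixes a vertex; an element of order three that fixes an edge is trivial,
because three points of a circle cannot be rotated with a fourth point fixed and because two circles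
cannot be permuted with order three; so `C₃ × C₃` would act freely on the three circles through a
point, or freely on the points of a circle, and both are impossible.
-/

namespace Pool.Agent.Results.MP_1730fe_al.NoEmbedding

open Pool.Agent.R627.RabbitGroup Pool.Agent.R627.RabbitStd

/-- Trees of circles of order `3` exist, and for every tree of circles `T` of order `3` there is no
injective group homomorphism from the universal group `𝓤(Sym([4]), Aut(S))` of the standard tree of
circles of order `4` to the universal group `𝓤(Sym([3]), Aut(S))` of `T`; in particular these two
groups are not isomorphic, not even as abstract groups. -/
theorem result : Nonempty (CircleTree 3) ∧ ∀ T : CircleTree 3,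
    ¬ EmbedsInto (universalGroup (std 3)) (universalGroup T) := by
  refine ⟨⟨std 2⟩, fun T => ?_⟩
  rintro ⟨f, hf⟩
  exact no_embed T C3_exp C3_card (f.comp (actU.comp emb)) (hf.comp (actU_inj.comp emb_inj))

end Pool.Agent.Results.MP_1730fe_al.NoEmbedding
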